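import Pool.Agent.FlipWalk.Main

/-!
The mixing time of the flip walk on the triangulations of a convex `n`-gon is at least
`c n^{3/2} log n`. This disproves the conjecture that it is of order `n^{3/2}`.

The definitions (`Triangulation`, `flipWalk`, `tvDist`, `Mixed`) are in
`Pool.Agent.FlipWalk.Defs`.
-/

namespace Pool.Agent.Results.MP_c502b4_pr.LogLowerBound

open Pool.Agent.FlipWalk

/-- There is `c > 0` such that every time `t` at which the flip walk on the triangulations of the
`n`-gon has mixed satisfies `t ≥ c n^{3/2} log n`. -/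
theorem result : ∃ c : ℝ, 0 < c ∧ ∀ n : ℕ, 4 ≤ n → ∀ t : ℕ, Mixed n t →
    c * ((n : ℝ) ^ (3 / 2 : ℝ) * Real.log n) ≤ t := by
  refine ⟨1 / 2 ^ 37, by norm_num, ?_⟩
  intro n hn t ht
  have h := main_lower hn ht
  have hn0 : (0 : ℝ) < n := by exact_mod_cast (by omega : 0 < n)
  have e : (n : ℝ) ^ (3 / 2 : ℝ) = (n : ℝ) * Real.sqrt n := by
    rw [Real.sqrt_eq_rpow, show (3 / 2 : ℝ) = 1 + 1 / 2 by norm_num, Real.rpow_add hn0,
      Real.rpow_one]
  rw [e]
  linarith

/-- In particular the mixing time divided by `n^{3/2}` tends to infinity: for every `C`, once `n`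
is large, the walk has not mixed at any time `t ≤ C n^{3/2}`. -/
theorem not_order_three_halves (C : ℝ) : ∀ᶠ n : ℕ in Filter.atTop, ∀ t : ℕ, Mixed n t →
    C * (n : ℝ) ^ (3 / 2 : ℝ) < t := by
  obtain ⟨c, hc, h⟩ := result
  have hlog : Filter.Tendsto (fun n : ℕ => Real.log (n : ℝ)) Filter.atTop Filter.atTop :=
    Real.tendsto_log_atTop.comp tendsto_natCast_atTop_atTop
  filter_upwards [Filter.eventually_ge_atTop 4, hlog.eventually_gt_atTop (C / c)] with n hn hl t ht
  have h1 := h n hn t ht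
  have hn0 : (0 : ℝ) < n := by exact_mod_cast (by omega : 0 < n)
  have h2 : (0 : ℝ) < (n : ℝ) ^ (3 / 2 : ℝ) := Real.rpow_pos_of_pos hn0 _
  rw [div_lt_iff₀ hc] at hl
  nlinarith

end Pool.Agent.Results.MP_c502b4_pr.LogLowerBound
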